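import Pool.Agent.Q196.FH.Crv

/-! # The averaged inequality for the test curves -/

set_option autoImplicit false

open Real Set MeasureTheory Metric Filter Topology
open scoped ENNReal

namespace Pool.Agent.Q196.FH

open Pool.Agent.Y499.HC Pool.Agent.Y499.HR Pool.Agent.Y502.HC Pool.Agent.Q196.FE
open Pool.Agent.Q196.FD

variable {d : ℕ} {G : Subgroup (O d)} {R : ℝ} {b : ℝ → E d → ℝ} {m : Met d} {x w : E d}

/-- the length of one of the test curves -/
lemma one_curve (hNS : NonShort R (scale b m)) (hI : GInv G R m) (hcirc : Circ R m x w)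
    (hx : ‖x‖ = 1) (hw : ‖w‖ = 1) (hin : inner ℝ x w = 0) {A : ℝ} (hA : A ∈ Ico 0 R)
    {g v : ℝ → ℝ} (hgc : Continuous g) (hv : ∀ t, HasDerivAt v (g (v t)) t) (hvm : Monotone v)
    (hvu : ∀ a, v (uu g a) = a) {α : ℝ}
    (hαA : α ∈ Ioo 0 (Real.arctan (Real.sinh (uu g A)))) {γ : O d} (hγ : γ ∈ G) :
    π ≤ ∫ τ in (0 : ℝ)..π, √((g (cv v α τ) * (Real.sin α * Real.cos τ / C α τ ^ 2)) ^ 2 +
      b (cv v α τ) (act γ (pt x w α τ)) ^ 2 *
        ((Real.cos α / C α τ ^ 2) ^ 2 * quad (m.g (cv v α τ) x) w)) := by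
  have hα : α ∈ Ioo 0 (π / 2) := ⟨hαA.1, hαA.2.trans (Real.arctan_lt_pi_div_two _)⟩
  have hr : ∀ t ∈ Icc 0 π, cv v α t ∈ Ico 0 R := fun t ht => by
    have h := cv_range hvm hvu hαA ht
    exact ⟨h.1, h.2.trans_lt hA.2⟩
  have hS0 : v (Real.arsinh (Real.tan 0)) = 0 := by
    have h := hvu 0
    rw [uu_zero] at h
    rw [Real.tan_zero, Real.arsinh_zero, h]
  have hdy : ∀ t, HasDerivAt (fun τ => act γ (pt x w α τ)) (act γ (dpt x w α t)) t := fun t =>
    ((act γ).toContinuousLinearEquiv : E d →L[ℝ] E d).hasFDerivAt.comp_hasDerivAt t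
      (hasDerivAt_pt hα t)
  have hyc : ContDiff ℝ 1 (fun τ => act γ (pt x w α τ)) :=
    (act γ).toContinuousLinearEquiv.contDiff.comp (contDiff_pt hα)
  have hmain := hNS π (cv v α) (fun τ => act γ (pt x w α τ)) pi_pos
    (contDiff_cv hgc hv hα) hyc hr ?_ ?_ ?_ ?_
  · refine hmain.trans (le_of_eq ?_)
    refine intervalIntegral.integral_congr fun t ht => ?_
    rw [uIcc_of_le pi_pos.le] at ht
    show √((scale b m).sq (cv v α t) (act γ (pt x w α t)) (deriv (cv v α) t)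
      (deriv (fun τ => act γ (pt x w α τ)) t)) = _
    rw [(hasDerivAt_cv hv hα t).deriv, (hdy t).deriv, scale_sq,
      hI γ hγ _ (hr t ht) _ (norm_pt hα hx hw hin t) _ (inner_pt hx hw hin t),
      quad_dpt hcirc hα (hr t ht)]
  · intro t
    rw [mem_sphere_zero_iff_norm]
    show ‖act γ (pt x w α t)‖ = 1
    rw [LinearIsometryEquiv.norm_map]
    exact norm_pt hα hx hw hin t
  · unfold cv S
    rw [Real.sin_zero, mul_zero, Real.arcsin_zero]
    exact hS0
  · unfold cv S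
    rw [Real.sin_pi, mul_zero, Real.arcsin_zero]
    exact hS0
  · show act γ (pt x w α π) = -act γ (pt x w α 0)
    rw [pt_zero, pt_pi, map_neg]

/-- the point on the circle as a point of the sphere -/
noncomputable def ptS (x w : E d) (α : ℝ) (h : ∀ t, ‖pt x w α t‖ = 1) (τ : ℝ) : Sph d :=
  ⟨pt x w α τ, mem_sphere_zero_iff_norm.2 (h τ)⟩

lemma ptS_cont {α : ℝ} (hα : α ∈ Ioo 0 (π / 2)) (h : ∀ t, ‖pt x w α t‖ = 1) :
    Continuous (ptS x w α h) :=
  Continuous.subtype_mk (contDiff_pt hα).continuous _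

lemma b_cont (hb : Factor R b) {A : ℝ} (hA : A ∈ Ico 0 R) {α : ℝ} (hα : α ∈ Ioo 0 (π / 2))
    (h : ∀ t, ‖pt x w α t‖ = 1) {c : ℝ → ℝ} (hc : Continuous c) :
    Continuous fun p : G × ℝ =>
      b (clp A (c p.2)) (actS (p.1 : O d) (ptS x w α h p.2) : E d) := by
  have h1 : Continuous fun p : G × ℝ => ((p.1 : O d), ptS x w α h p.2) :=
    (continuous_subtype_val.comp continuous_fst).prodMk ((ptS_cont hα h).comp continuous_snd)
  have h2 := continuous_actS.comp h1
  have h3 : Continuous fun p : G × ℝ => (c p.2, actS (p.1 : O d) (ptS x w α h p.2)) :=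
    (hc.comp continuous_snd).prodMk h2
  exact (hb.cont2 hA).comp h3

end Pool.Agent.Q196.FH
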