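import Pool.Agent.Q196.FH.Avc

/-! # The averaged inequality for the test curves -/

set_option autoImplicit false

open Real Set MeasureTheory Metric Filter Topology
open scoped ENNReal

namespace Pool.Agent.Q196.FH

open Pool.Agent.Y499.HC Pool.Agent.Y499.HR Pool.Agent.Y502.HC Pool.Agent.Q196.FE
open Pool.Agent.Q196.FD

variable {d : ℕ} {G : Subgroup (O d)} {R : ℝ} {b : ℝ → E d → ℝ} {m : Met d} {x w : E d}

/-- an abstract averaging lemma -/
lemma avg_sqrt {Ω : Type} [TopologicalSpace Ω] [CompactSpace Ω] [MeasurableSpace Ω] [BorelSpace Ω]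
    [SecondCountableTopology Ω] (ν : Measure Ω) [IsProbabilityMeasure ν] {D β q : ℝ → ℝ}
    {B : Ω × ℝ → ℝ} (hD : Continuous D) (hq : Continuous q) (hq0 : ∀ τ, 0 ≤ q τ)
    (hB : Continuous B) (hβ : Continuous β) (hβ0 : ∀ τ, 0 < β τ)
    (hm : ∀ τ ∈ Ioc 0 π, D τ ^ 2 + q τ * ∫ γ, B (γ, τ) ^ 2 ∂ν = β τ ^ 2)
    (h : ∀ γ, π ≤ ∫ τ in (0 : ℝ)..π, √(D τ ^ 2 + B (γ, τ) ^ 2 * q τ)) :
    π ≤ ∫ τ in (0 : ℝ)..π, β τ := by
  have hX0 : ∀ (γ : Ω) (τ : ℝ), 0 ≤ D τ ^ 2 + B (γ, τ) ^ 2 * q τ := fun γ τ =>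
    add_nonneg (sq_nonneg _) (mul_nonneg (sq_nonneg _) (hq0 τ))
  have hΛ : Continuous fun p : Ω × ℝ => √(D p.2 ^ 2 + B p ^ 2 * q p.2) :=
    (((hD.comp continuous_snd).pow 2).add ((hB.pow 2).mul (hq.comp continuous_snd))).sqrt
  have hX : Continuous fun p : Ω × ℝ => D p.2 ^ 2 + B p ^ 2 * q p.2 :=
    ((hD.comp continuous_snd).pow 2).add ((hB.pow 2).mul (hq.comp continuous_snd))
  have h1 : ENNReal.ofReal π ≤ ∫⁻ γ, (∫⁻ τ in Ioc (0 : ℝ) π,
      ENNReal.ofReal (√(D τ ^ 2 + B (γ, τ) ^ 2 * q τ))) ∂ν := by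
    have h2 : ∀ γ : Ω, ENNReal.ofReal π ≤ ∫⁻ τ in Ioc (0 : ℝ) π,
        ENNReal.ofReal (√(D τ ^ 2 + B (γ, τ) ^ 2 * q τ)) := by
      intro γ
      have hc : Continuous fun τ : ℝ => √(D τ ^ 2 + B (γ, τ) ^ 2 * q τ) :=
        hΛ.comp (continuous_const.prodMk continuous_id)
      rw [lint_eq hc (fun _ => Real.sqrt_nonneg _) pi_pos.le]
      exact ENNReal.ofReal_le_ofReal (h γ)
    calc ENNReal.ofReal π = ∫⁻ _ : Ω, ENNReal.ofReal π ∂ν := by
          rw [lintegral_const, measure_univ, mul_one]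
      _ ≤ _ := lintegral_mono h2
  rw [lintegral_lintegral_swap (by
    exact (ENNReal.measurable_ofReal.comp hΛ.measurable).aemeasurable)] at h1
  have h3 : ∫⁻ τ in Ioc (0 : ℝ) π, (∫⁻ γ, ENNReal.ofReal (√(D τ ^ 2 + B (γ, τ) ^ 2 * q τ)) ∂ν) ≤
      ∫⁻ τ in Ioc (0 : ℝ) π, ENNReal.ofReal (β τ) := by
    refine setLIntegral_mono' measurableSet_Ioc fun τ hτ => ?_
    have hcX : Continuous fun γ : Ω => D τ ^ 2 + B (γ, τ) ^ 2 * q τ :=
      hX.comp (continuous_id.prodMk continuous_const)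
    have hiX : Integrable (fun γ : Ω => D τ ^ 2 + B (γ, τ) ^ 2 * q τ) ν :=
      hcX.integrable_of_hasCompactSupport (HasCompactSupport.of_compactSpace _)
    have hiS : Integrable (fun γ : Ω => √(D τ ^ 2 + B (γ, τ) ^ 2 * q τ)) ν :=
      hcX.sqrt.integrable_of_hasCompactSupport (HasCompactSupport.of_compactSpace _)
    rw [← ofReal_integral_eq_lintegral_ofReal hiS (Eventually.of_forall fun _ =>
      Real.sqrt_nonneg _)]
    refine ENNReal.ofReal_le_ofReal (jensen_sqrt hiX hiS (fun γ => hX0 γ τ) (hβ0 τ) ?_)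
    rw [← hm τ hτ]
    have hcB : Continuous fun γ : Ω => B (γ, τ) ^ 2 :=
      (hB.comp (continuous_id.prodMk continuous_const)).pow 2
    have hiB : Integrable (fun γ : Ω => B (γ, τ) ^ 2) ν :=
      hcB.integrable_of_hasCompactSupport (HasCompactSupport.of_compactSpace _)
    rw [integral_add (integrable_const _) (hiB.mul_const _), integral_mul_const,
      integral_const, probReal_univ, one_smul, mul_comm (q τ)]
  rw [lint_eq hβ (fun τ => (hβ0 τ).le) pi_pos.le] at h3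
  have h4 := h1.trans h3
  refine (ENNReal.ofReal_le_ofReal_iff ?_).1 h4
  exact intervalIntegral.integral_nonneg pi_pos.le fun τ _ => (hβ0 τ).le

lemma speed_id {c T sa ca st ct : ℝ} (hc : c ≠ 0) (h1 : c ^ 2 = 1 - (sa * st) ^ 2)
    (h2 : sa ^ 2 + ca ^ 2 = 1) (h3 : st ^ 2 + ct ^ 2 = 1) :
    (T * (sa * ct / c ^ 2)) ^ 2 + (ca / c ^ 2) ^ 2 * T ^ 2 = (T / c) ^ 2 := by
  have h4 : (sa * ct) ^ 2 + ca ^ 2 = c ^ 2 := by
    rw [h1]
    linear_combination h2 + sa ^ 2 * h3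
  have h5 : (T * (sa * ct / c ^ 2)) ^ 2 + (ca / c ^ 2) ^ 2 * T ^ 2 =
      T ^ 2 * ((sa * ct) ^ 2 + ca ^ 2) / c ^ 4 := by
    field_simp
  rw [h5, h4]
  field_simp

theorem curve_avg (hG : Trans G) (hb : Factor R b) (hNS : NonShort R (scale b m))
    (hI : GInv G R m) (hcirc : Circ R m x w) (hx : ‖x‖ = 1) (hw : ‖w‖ = 1)
    (hin : inner ℝ x w = 0) (hqc : ContinuousOn (fun s => quad (m.g s x) w) (Ico 0 R))
    (hq : ∀ s ∈ Ico 0 R, 0 < quad (m.g s x) w) :
    CurveIneq R fun s => Bm b s * √(quad (m.g s x) w) := by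
  intro A hA v hv hvm hvu α hαA
  haveI : CompactSpace G := isCompact_iff_compactSpace.mp hG.closed.isCompact
  have hα : α ∈ Ioo 0 (π / 2) := ⟨hαA.1, hαA.2.trans (Real.arctan_lt_pi_div_two _)⟩
  haveI : SecondCountableTopology (O d) := by
    haveI : SecondCountableTopology (Matrix (Fin (d + 1)) (Fin (d + 1)) ℝ) :=
      inferInstanceAs (SecondCountableTopology (Fin (d + 1) → Fin (d + 1) → ℝ))
    exact TopologicalSpace.Subtype.secondCountableTopology _
  haveI : SecondCountableTopology G := TopologicalSpace.Subtype.secondCountableTopology _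
  obtain ⟨ν, hν1, hν⟩ := exists_average hG
  set g : ℝ → ℝ := fun t => Bm b (clp A t) * √(quad (m.g (clp A t) x) w) with hg
  have hfc : ContinuousOn (fun s => Bm b s * √(quad (m.g s x) w)) (Ico 0 R) :=
    hb.Bm_cont.mul hqc.sqrt
  have hgc : Continuous g := hfc.comp_continuous (clp_cont A) (clp_mem_Ico hA)
  have hgp : ∀ t, 0 < g t := fun t => mul_pos (hb.Bm_pos (clp_mem_Ico hA t))
    (Real.sqrt_pos.2 (hq _ (clp_mem_Ico hA t)))
  have hcv : Continuous (cv v α) := (contDiff_cv hgc hv hα).continuous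
  have hCc : Continuous (C α) := Pool.Agent.Q196.FD.continuous_C α
  have hC := C_pos' hα
  have hn := norm_pt (x := x) (w := w) hα hx hw hin
  have hqcc : Continuous fun τ => quad (m.g (clp A (cv v α τ)) x) w := by
    have h1 := hqc.comp_continuous ((clp_cont A).comp hcv) fun τ => clp_mem_Ico hA _
    exact h1
  refine avg_sqrt ν (D := fun τ => g (cv v α τ) * (Real.sin α * Real.cos τ / C α τ ^ 2))
    (q := fun τ => (Real.cos α / C α τ ^ 2) ^ 2 * quad (m.g (clp A (cv v α τ)) x) w)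
    (B := fun p : G × ℝ => b (clp A (cv v α p.2)) (actS (p.1 : O d) (ptS x w α hn p.2) : E d))
    ?_ ?_ ?_ (b_cont hb hA hα hn hcv) ?_ ?_ ?_ ?_
  · exact (hgc.comp hcv).mul ((continuous_const.mul Real.continuous_cos).div (hCc.pow 2)
      fun τ => (pow_pos (hC τ) 2).ne')
  · exact ((continuous_const.div (hCc.pow 2) fun τ => (pow_pos (hC τ) 2).ne').pow 2).mul hqcc
  · exact fun τ => mul_nonneg (sq_nonneg _) (hq _ (clp_mem_Ico hA _)).le
  · exact (hgc.comp hcv).div hCc fun τ => (hC τ).ne'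
  · exact fun τ => div_pos (hgp _) (hC τ)
  · intro τ _
    have hs := clp_mem_Ico hA (cv v α τ)
    have h1 := hb.avg hν hs (ptS x w α hn τ)
    simp only
    rw [h1]
    have h2 : g (cv v α τ) ^ 2 = Bm b (clp A (cv v α τ)) ^ 2 *
        quad (m.g (clp A (cv v α τ)) x) w := by
      rw [hg]
      show (Bm b (clp A (cv v α τ)) * √(quad (m.g (clp A (cv v α τ)) x) w)) ^ 2 = _
      rw [mul_pow, Real.sq_sqrt (hq _ hs).le]
    have h3 : (Real.cos α / C α τ ^ 2) ^ 2 * quad (m.g (clp A (cv v α τ)) x) w *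
        Bm b (clp A (cv v α τ)) ^ 2 = (Real.cos α / C α τ ^ 2) ^ 2 * g (cv v α τ) ^ 2 := by
      rw [h2]
      ring
    rw [h3]
    exact speed_id (hC τ).ne' (C_sq' hα τ) (sin_sq_add_cos_sq α) (sin_sq_add_cos_sq τ)
  · intro γ
    have h1 := one_curve hNS hI hcirc hx hw hin hA hgc hv hvm hvu hαA γ.2
    refine h1.trans (le_of_eq ?_)
    refine intervalIntegral.integral_congr fun t ht => ?_
    rw [uIcc_of_le pi_pos.le] at ht
    have hr := cv_range hvm hvu hαA ht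
    simp only
    rw [clp_eq hr]
    rfl

end Pool.Agent.Q196.FH
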