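import Pool.Agent.Q196.FH.Mean

/-! # The averaged test curves -/

set_option autoImplicit false

open Real Set MeasureTheory Metric Filter Topology
open scoped ENNReal

namespace Pool.Agent.Q196.FH

open Pool.Agent.Y499.HC Pool.Agent.Y499.HR Pool.Agent.Y502.HC Pool.Agent.Q196.FE
open Pool.Agent.Q196.FD
open Pool.Agent.Z932.HC (hasDerivAt_p hasDerivAt_q contDiff_C)

variable {d : ℕ}

/-- the slices are invariant under the group -/
def GInv (G : Subgroup (O d)) (R : ℝ) (m : Met d) : Prop :=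
  ∀ γ ∈ G, ∀ s ∈ Ico 0 R, ∀ x : E d, ‖x‖ = 1 → ∀ v : E d, inner ℝ x v = 0 →
    quad (m.g s (act γ x)) (act γ v) = quad (m.g s x) v

lemma quad_smul_mat (c : ℝ) (g : Matrix (Fin (d + 1)) (Fin (d + 1)) ℝ) (v : E d) :
    quad (c • g) v = c * quad g v := by
  unfold quad
  rw [Finset.mul_sum]
  refine Finset.sum_congr rfl fun i _ => ?_
  rw [Finset.mul_sum]
  refine Finset.sum_congr rfl fun j _ => ?_
  rw [Matrix.smul_apply, smul_eq_mul]
  ring

lemma scale_sq (b : ℝ → E d → ℝ) (m : Met d) (s : ℝ) (x : E d) (p : ℝ) (v : E d) :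
    (scale b m).sq s x p v = p ^ 2 + b s x ^ 2 * quad (m.g s x) v := by
  unfold Met.sq scale
  simp only [inner_zero_left, quad_smul_mat]
  ring

/-- the point of the great circle -/
noncomputable def pt (x w : E d) (α τ : ℝ) : E d :=
  (Real.cos τ / C α τ) • x + (Real.cos α * Real.sin τ / C α τ) • w

/-- its derivative -/
noncomputable def dpt (x w : E d) (α τ : ℝ) : E d :=
  (Real.cos α / C α τ ^ 2) • ((Real.cos τ / C α τ) • w -
    (Real.cos α * Real.sin τ / C α τ) • x)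

section

variable {x w : E d} {α : ℝ}

lemma hasDerivAt_pt (hα : α ∈ Ioo 0 (π / 2)) (t : ℝ) :
    HasDerivAt (pt x w α) (dpt x w α t) t := by
  have h1 := ((hasDerivAt_p hα t).smul_const x).add ((hasDerivAt_q hα t).smul_const w)
  refine h1.congr_deriv ?_
  unfold dpt
  module

lemma contDiff_pt (hα : α ∈ Ioo 0 (π / 2)) : ContDiff ℝ 1 (pt x w α) := by
  have h0 : ∀ t, C α t ≠ 0 := fun t => (C_pos' hα t).ne'
  exact ((Real.contDiff_cos.div (contDiff_C hα) h0).smul contDiff_const).add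
    (((contDiff_const.mul Real.contDiff_sin).div (contDiff_C hα) h0).smul contDiff_const)

lemma pq_one (hα : α ∈ Ioo 0 (π / 2)) (t : ℝ) :
    (Real.cos t / C α t) ^ 2 + (Real.cos α * Real.sin t / C α t) ^ 2 = 1 := by
  have h0 := (C_pos' hα t).ne'
  have h2 := C_sq' hα t
  have h3 := sin_sq_add_cos_sq α
  have h4 := sin_sq_add_cos_sq t
  field_simp
  rw [h2]
  linear_combination (Real.sin t ^ 2) * h3 + h4

lemma norm_pt (hα : α ∈ Ioo 0 (π / 2)) (hx : ‖x‖ = 1) (hw : ‖w‖ = 1) (hin : inner ℝ x w = 0)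
    (t : ℝ) : ‖pt x w α t‖ = 1 := by
  have h1 : ‖pt x w α t‖ ^ 2 = 1 ^ 2 := by
    unfold pt
    rw [norm_add_sq_real, inner_smul_left, inner_smul_right, hin, norm_smul, norm_smul, hx, hw,
      mul_pow, mul_pow, Real.norm_eq_abs, Real.norm_eq_abs, sq_abs, sq_abs]
    have h := pq_one hα t
    simp only [mul_zero, add_zero, one_pow, mul_one]
    exact h
  exact (sq_eq_sq₀ (norm_nonneg _) zero_le_one).1 h1

lemma pt_zero : pt x w α 0 = x := by
  unfold pt C
  simp

lemma pt_pi : pt x w α π = -x := by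
  unfold pt C
  simp

lemma inner_pt (hx : ‖x‖ = 1) (hw : ‖w‖ = 1) (hin : inner ℝ x w = 0) (t : ℝ) :
    inner ℝ (pt x w α t) (dpt x w α t) = 0 := by
  have hin' : inner ℝ w x = 0 := by rw [real_inner_comm]; exact hin
  unfold pt dpt
  simp only [inner_smul_left, inner_smul_right, inner_add_left, inner_sub_right, hin, hin',
    real_inner_self_eq_norm_sq, hx, hw, conj_trivial]
  ring

lemma quad_dpt {R : ℝ} {m : Met d} (hcirc : Circ R m x w) (hα : α ∈ Ioo 0 (π / 2)) {s : ℝ}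
    (hs : s ∈ Ico 0 R) (t : ℝ) :
    quad (m.g s (pt x w α t)) (dpt x w α t) =
      (Real.cos α / C α t ^ 2) ^ 2 * quad (m.g s x) w := by
  unfold dpt
  rw [quad_smul]
  congr 1
  exact hcirc s hs _ _ (pq_one hα t)

end

lemma cv_range {A : ℝ} {g v : ℝ → ℝ}
    (hvm : Monotone v) (hvu : ∀ a, v (uu g a) = a) {α : ℝ}
    (hαA : α ∈ Ioo 0 (Real.arctan (Real.sinh (uu g A)))) {t : ℝ} (ht : t ∈ Icc 0 π) :
    cv v α t ∈ Icc 0 A := by
  have hα : α ∈ Ioo 0 (π / 2) := ⟨hαA.1, hαA.2.trans (Real.arctan_lt_pi_div_two _)⟩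
  have hS0 : v (Real.arsinh (Real.tan 0)) = 0 := by
    have h := hvu 0
    rw [uu_zero] at h
    rw [Real.tan_zero, Real.arsinh_zero, h]
  have hS := S_mem hα ht
  have h1 : 0 ≤ Real.tan (S α t) :=
    Real.tan_nonneg_of_nonneg_of_le_pi_div_two hS.1 (hS.2.trans hα.2.le)
  have h2 : Real.tan (S α t) ≤ Real.sinh (uu g A) := by
    have h3 : S α t ≤ Real.arctan (Real.sinh (uu g A)) := hS.2.trans hαA.2.le
    have h4 : Real.tan (S α t) ≤ Real.tan (Real.arctan (Real.sinh (uu g A))) := by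
      rcases h3.eq_or_lt with h5 | h5
      · rw [h5]
      · exact (Real.tan_lt_tan_of_lt_of_lt_pi_div_two (by linarith [hS.1, pi_pos])
          (Real.arctan_lt_pi_div_two _) h5).le
    rwa [Real.tan_arctan] at h4
  constructor
  · have h5 : v (Real.arsinh (Real.tan 0)) ≤ cv v α t := by
      refine hvm ?_
      rw [Real.tan_zero]
      exact Real.arsinh_le_arsinh.2 h1
    rwa [hS0] at h5
  · have h5 : cv v α t ≤ v (Real.arsinh (Real.sinh (uu g A))) :=
      hvm (Real.arsinh_le_arsinh.2 h2)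
    rwa [Real.arsinh_sinh, hvu] at h5

end Pool.Agent.Q196.FH
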