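import Pool.Agent.Q196.FH.Rig2

/-! # The collar inequality for conformal multiples of invariant slices, with the case of
equality -/

set_option autoImplicit false

open Real Set MeasureTheory Metric Filter Topology
open scoped ENNReal

namespace Pool.Agent.Q196.FH

open Pool.Agent.Y499.HC Pool.Agent.Y499.HR Pool.Agent.Y502.HC Pool.Agent.Q196.FE
open Pool.Agent.Q196.FD

variable {d : ℕ} {G : Subgroup (O d)} {R : ℝ} {b : ℝ → E d → ℝ} {m : Met d} {x : E d}
  {ι : Type} [Fintype ι] {w : ι → E d}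

lemma b_s_cont (hb : Factor R b) {z : E d} (hz : ‖z‖ = 1) :
    ContinuousOn (fun s => b s z) (Ico 0 R) :=
  hb.cont.comp (f := fun s : ℝ => (s, z)) (by fun_prop)
    fun s hs => ⟨hs, mem_sphere_zero_iff_norm.2 hz⟩

/-- the case of equality for conformal multiples of invariant slices -/
theorem conf_rigid (hR0 : 0 < R) (hR : R ≤ π / 2) (hG : Trans G) (hgood : Good R m)
    (hP : PosDef R m) (hI : GInv G R m) (hb : Factor R b) (hNS : NonShort R (scale b m))
    (hd : 2 ≤ d) (hx : ‖x‖ = 1) (h : Frame R m x w)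
    (heq : vol R (scale b m) = hemiCollar d R) : IsRound R (scale b m) := by
  have h1 := conf_aux hG hgood hP hI hb hd hx h
  rw [heq] at h1
  have hσ : (σ d) univ ≠ 0 := fun h0 => by
    have := sigma_pos d
    unfold Measure.real at this
    rw [h0] at this
    exact lt_irrefl _ this
  have h2 : ∫⁻ s in Ioo 0 R, ENNReal.ofReal (∏ i, (Bm b s * √(quad (m.g s x) (w i)))) ≤
      ENNReal.ofReal (∫ θ in (0 : ℝ)..R, Real.cos θ ^ d) :=
    (ENNReal.mul_le_mul_iff_right hσ (measure_ne_top _ _)).1 h1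
  have hD := conf_dirs hG hgood hP hI hb hNS hx h
  have hf : ∀ i, ∀ s ∈ Ico 0 R, Bm b s * √(quad (m.g s x) (w i)) = Real.cos s :=
    fun i s hs => one_dim_eq hR0 hR hD h2 i hs
  have hpt : ∀ i, ∀ z : E d, ‖z‖ = 1 → ∀ s ∈ Ico 0 R,
      b s z ^ 2 * quad (m.g s x) (w i) = Real.cos s ^ 2 := by
    intro i z hz s hs
    have hin : ∀ s ∈ Ioo 0 R, b s z ^ 2 * quad (m.g s x) (w i) = Real.cos s ^ 2 := fun s hs =>
      rigid_pt hG hb hNS hI hR (h.circ i) hx (h.orthn.norm_eq_one i) (h.perp i)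
        (quad_cont hgood hx (w i)) (fun s hs => h.quad_pos hP hx hs i) (hf i) hs hz
    rcases hs.1.eq_or_lt with h0 | h0
    · have hc : ContinuousOn (fun s => b s z ^ 2 * quad (m.g s x) (w i)) (Ico 0 R) :=
        ((b_s_cont hb hz).pow 2).mul (quad_cont hgood hx (w i))
      have h3 : Tendsto (fun s => b s z ^ 2 * quad (m.g s x) (w i)) (𝓝[Ioo 0 R] 0)
          (𝓝 (b 0 z ^ 2 * quad (m.g 0 x) (w i))) :=
        (hc 0 ⟨le_rfl, hR0⟩).mono_left (nhdsWithin_mono _ Ioo_subset_Ico_self)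
      have h4 : Tendsto (fun s => Real.cos s ^ 2) (𝓝[Ioo 0 R] 0) (𝓝 (Real.cos 0 ^ 2)) :=
        (Real.continuous_cos.pow 2).continuousWithinAt
      haveI : (𝓝[Ioo 0 R] (0 : ℝ)).NeBot := by
        rw [nhdsWithin_Ioo_eq_nhdsGT hR0]
        infer_instance
      have h5 := tendsto_nhds_unique_of_eventuallyEq h3 h4
        (by filter_upwards [self_mem_nhdsWithin] with t ht using hin t ht)
      rw [← h0]
      exact h5
    · exact hin s ⟨h0, hs.2⟩
  intro s hs y hy p v hv
  have hy1 : ‖y‖ = 1 := mem_sphere_zero_iff_norm.1 hy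
  obtain ⟨γ, hγ, hγx⟩ := hG.trans x y hx hy1
  have hfr := frame_act hI hx h hγ
  rw [hγx] at hfr
  have hq : ∀ i, quad (m.g s y) (act γ (w i)) = quad (m.g s x) (w i) := fun i => by
    rw [← hγx]
    exact hI γ hγ s hs x hx _ (h.perp i)
  obtain ⟨ob, ho, hob⟩ := exists_ob hy1 hfr.card hfr.perp hfr.orthn
  have h3 := ob.sum_repr' v
  rw [Fintype.sum_option, ho, hv, zero_smul, zero_add] at h3
  simp only [hob] at h3
  have h4 := ob.sum_sq_norm_inner_right v
  rw [Fintype.sum_option, ho, hv, norm_zero] at h4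
  simp only [hob, Real.norm_eq_abs, sq_abs] at h4
  have h5 := hfr.diag s hs fun i => inner ℝ (act γ (w i)) v
  rw [h3] at h5
  rw [scale_sq, h5, ← h4, Finset.mul_sum]
  have h6 : ∀ i, b s y ^ 2 * (inner ℝ (act γ (w i)) v ^ 2 * quad (m.g s y) (act γ (w i))) =
      inner ℝ (act γ (w i)) v ^ 2 * Real.cos s ^ 2 := fun i => by
    rw [hq, ← hpt i y hy1 s hs]
    ring
  simp only [h6]
  rw [← Finset.sum_mul]
  ring

/-- collars of all widths -/
theorem conf (hR0 : 0 < R) (hG : Trans G) (hgood : Good R m)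
    (hP : PosDef R m) (hI : GInv G R m) (hb : Factor R b) (hNS : NonShort R (scale b m))
    (hd : 2 ≤ d) (hx : ‖x‖ = 1) (h : Frame R m x w) :
    hemiCollar d (min R (π / 2)) ≤ vol R (scale b m) ∧
      (R ≤ π / 2 → vol R (scale b m) = hemiCollar d R → IsRound R (scale b m)) := by
  refine ⟨?_, fun hR heq => conf_rigid hR0 hR hG hgood hP hI hb hNS hd hx h heq⟩
  have h0 : min R (π / 2) ≤ R := min_le_left _ _
  have h1 : Ico 0 (min R (π / 2)) ⊆ Ico 0 R := Ico_subset_Ico_right h0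
  have hb' : Factor (min R (π / 2)) b :=
    ⟨hb.cont.mono (prod_mono h1 le_rfl), fun s hs => hb.pos s (h1 hs)⟩
  refine (conf_volume (lt_min hR0 (by positivity)) (min_le_right _ _) hG (good_mono h0 hgood)
    (fun s hs => hP s (h1 hs)) (fun γ hγ s hs => hI γ hγ s (h1 hs)) hb'
    (fun l s y hl hs hy h2 h3 h4 h5 h6 => hNS l s y hl hs hy (fun t ht => h1 (h2 t ht)) h3 h4 h5 h6)
    hd hx (h.mono h0)).trans (lintegral_mono_set (Ioo_subset_Ioo_right h0))

end Pool.Agent.Q196.FH
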