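import Pool.Agent.Q196.FH.Fac
import Pool.Agent.Q196.FE.Grp2

/-! # The quadratic mean of the conformal factor -/

set_option autoImplicit false

open Real Set MeasureTheory Metric Filter Topology
open scoped ENNReal

namespace Pool.Agent.Q196.FH

open Pool.Agent.Y499.HC Pool.Agent.Y499.HR Pool.Agent.Y502.HC Pool.Agent.Q196.FE

variable {d : ℕ}

/-- the quadratic mean of `b s` over the sphere -/
noncomputable def Bm (b : ℝ → E d → ℝ) (s : ℝ) : ℝ :=
  √((∫ y : Sph d, b s y ^ 2 ∂(σ d)) / (σ d).real univ)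

variable {R : ℝ} {b : ℝ → E d → ℝ}

lemma contOn_of_clp {f : ℝ → ℝ} (h : ∀ A ∈ Ico 0 R, Continuous fun s => f (clp A s)) :
    ContinuousOn f (Ico 0 R) := by
  intro s hs
  obtain ⟨A, hA1, hA2⟩ := exists_between hs.2
  have h1 := (h A ⟨hs.1.trans hA1.le, hA2⟩).continuousWithinAt (s := Ico 0 R) (x := s)
  have h2 : ∀ᶠ t in 𝓝[Ico 0 R] s, f t = f (clp A t) := by
    have h3 : ∀ᶠ t in 𝓝[Ico 0 R] s, t < A := mem_nhdsWithin_of_mem_nhds (Iio_mem_nhds hA1)
    filter_upwards [h3, self_mem_nhdsWithin] with t ht1 ht2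
    rw [clp_eq ⟨ht2.1, ht1.le⟩]
  refine h1.congr_of_eventuallyEq h2 ?_
  rw [clp_eq ⟨hs.1, hA1.le⟩]

lemma clp_mem_Ico {A : ℝ} (hA : A ∈ Ico 0 R) (t : ℝ) : clp A t ∈ Ico 0 R :=
  ⟨(clp_mem hA.1 t).1, (clp_mem hA.1 t).2.trans_lt hA.2⟩

lemma Factor.cont2 (hb : Factor R b) {A : ℝ} (hA : A ∈ Ico 0 R) :
    Continuous fun p : ℝ × Sph d => b (clp A p.1) (p.2 : E d) := by
  have h1 : Continuous fun p : ℝ × Sph d => (clp A p.1, (p.2 : E d)) :=
    ((clp_cont A).comp continuous_fst).prodMk (continuous_subtype_val.comp continuous_snd)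
  exact hb.cont.comp_continuous h1 fun p => ⟨clp_mem_Ico hA p.1, p.2.2⟩

lemma Factor.cont1 (hb : Factor R b) {s : ℝ} (hs : s ∈ Ico 0 R) :
    Continuous fun y : Sph d => b s (y : E d) := by
  have h1 : Continuous fun y : Sph d => (s, (y : E d)) :=
    continuous_const.prodMk continuous_subtype_val
  exact hb.cont.comp_continuous h1 fun p => ⟨hs, p.2⟩

lemma sigma_pos (d : ℕ) : 0 < (σ d).real univ := by
  have hne : (σ d) ≠ 0 := (Measure.toSphere_ne_zero _)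
  have h1 : (σ d) univ ≠ 0 := fun h => hne (Measure.measure_univ_eq_zero.1 h)
  exact ENNReal.toReal_pos h1 (measure_ne_top _ _)

lemma exists_pt (d : ℕ) : ∃ x : E d, ‖x‖ = 1 := ⟨EuclideanSpace.single 0 1, by simp⟩

lemma Factor.int_pos (hb : Factor R b) {s : ℝ} (hs : s ∈ Ico 0 R) :
    0 < ∫ y : Sph d, b s y ^ 2 ∂(σ d) := by
  obtain ⟨x, hx⟩ := exists_pt d
  have h1 : Continuous fun y : Sph d => b s (y : E d) ^ 2 := (hb.cont1 hs).pow 2
  refine h1.integral_pos_of_hasCompactSupport_nonneg_nonzero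
    (HasCompactSupport.of_compactSpace _) (fun y => sq_nonneg _)
    (x := ⟨x, mem_sphere_zero_iff_norm.2 hx⟩) ?_
  exact (pow_pos (hb.pos s hs x hx) 2).ne'

lemma Factor.Bm_sq (hb : Factor R b) {s : ℝ} (hs : s ∈ Ico 0 R) :
    Bm b s ^ 2 = (∫ y : Sph d, b s y ^ 2 ∂(σ d)) / (σ d).real univ :=
  Real.sq_sqrt (div_pos (hb.int_pos hs) (sigma_pos d)).le

lemma Factor.Bm_pos (hb : Factor R b) {s : ℝ} (hs : s ∈ Ico 0 R) : 0 < Bm b s :=
  Real.sqrt_pos.2 (div_pos (hb.int_pos hs) (sigma_pos d))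

lemma Factor.Bm_cont (hb : Factor R b) : ContinuousOn (Bm b) (Ico 0 R) := by
  refine contOn_of_clp fun A hA => ?_
  have h1 : Continuous (Function.uncurry fun (s : ℝ) (y : Sph d) => b (clp A s) (y : E d) ^ 2) :=
    (hb.cont2 hA).pow 2
  have h2 := continuous_parametric_integral_of_continuous (μ := σ d) h1 isCompact_univ
  simp only [Measure.restrict_univ] at h2
  exact (h2.div_const _).sqrt

/-- the average over the group -/
lemma Factor.avg (hb : Factor R b) {G : Subgroup (O d)} {ν : Measure G}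
    (hν : ∀ F : Sph d → ℝ, Continuous F → ∀ x : Sph d,
      (σ d).real univ * ∫ γ : G, F (actS (γ : O d) x) ∂ν = ∫ y, F y ∂(σ d))
    {s : ℝ} (hs : s ∈ Ico 0 R) (x : Sph d) :
    ∫ γ : G, b s (actS (γ : O d) x : E d) ^ 2 ∂ν = Bm b s ^ 2 := by
  have h1 := hν (fun y => b s (y : E d) ^ 2) ((hb.cont1 hs).pow 2) x
  rw [hb.Bm_sq hs, ← h1]
  have := (sigma_pos d).ne'
  field_simp

lemma jensen_sqrt {Ω : Type} [MeasurableSpace Ω] {ν : Measure Ω} [IsProbabilityMeasure ν]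
    {X : Ω → ℝ} (hX : Integrable X ν) (hX' : Integrable (fun γ => √(X γ)) ν)
    (h0 : ∀ γ, 0 ≤ X γ) {c : ℝ} (hc : 0 < c) (hm : ∫ γ, X γ ∂ν = c ^ 2) :
    ∫ γ, √(X γ) ∂ν ≤ c := by
  have h1 : ∫ γ, √(X γ) ∂ν ≤ ∫ γ, (X γ / (2 * c) + c / 2) ∂ν := by
    refine integral_mono hX' ((hX.div_const _).add (integrable_const _)) fun γ => ?_
    have h2 := Real.sq_sqrt (h0 γ)
    have h3 : 0 ≤ (√(X γ) - c) ^ 2 := sq_nonneg _
    show √(X γ) ≤ X γ / (2 * c) + c / 2
    have h4 : X γ / (2 * c) + c / 2 - √(X γ) = (√(X γ) - c) ^ 2 / (2 * c) := by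
      rw [sub_sq, h2]
      field_simp
      ring
    have h5 : 0 ≤ (√(X γ) - c) ^ 2 / (2 * c) := by positivity
    linarith
  refine h1.trans (le_of_eq ?_)
  rw [integral_add (hX.div_const _) (integrable_const _), integral_div, hm, integral_const]
  simp only [probReal_univ, smul_eq_mul, one_mul]
  field_simp
  ring

end Pool.Agent.Q196.FH
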