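import Pool.Agent.Q196.FH.Vol

/-! # The case of equality for conformal multiples -/

set_option autoImplicit false

open Real Set MeasureTheory Metric Filter Topology
open scoped ENNReal

namespace Pool.Agent.Q196.FH

open Pool.Agent.Y499.HC Pool.Agent.Y499.HR Pool.Agent.Y502.HC Pool.Agent.Q196.FE
open Pool.Agent.Q196.FD

section

variable {Ω : Type} [TopologicalSpace Ω] [CompactSpace Ω] [MeasurableSpace Ω] [BorelSpace Ω]
    [SecondCountableTopology Ω] {ν : Measure Ω} [IsProbabilityMeasure ν] {D q : ℝ → ℝ}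
    {B : Ω × ℝ → ℝ}

lemma avg_K_cont (hD : Continuous D) (hq : Continuous q) (hB : Continuous B) :
    Continuous fun τ => ∫ γ, √(D τ ^ 2 + B (γ, τ) ^ 2 * q τ) ∂ν := by
  have h1 : Continuous (Function.uncurry fun (τ : ℝ) (γ : Ω) =>
      √(D τ ^ 2 + B (γ, τ) ^ 2 * q τ)) := by
    have h2 : Continuous fun p : ℝ × Ω => B (p.2, p.1) :=
      hB.comp (continuous_snd.prodMk continuous_fst)
    exact (((hD.comp continuous_fst).pow 2).add ((h2.pow 2).mul (hq.comp continuous_fst))).sqrt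
  have h2 := continuous_parametric_integral_of_continuous (μ := ν) h1 isCompact_univ
  simp only [Measure.restrict_univ] at h2
  exact h2

lemma avg_K (hD : Continuous D) (hq : Continuous q) (hB : Continuous B)
    (h : ∀ γ, π ≤ ∫ τ in (0 : ℝ)..π, √(D τ ^ 2 + B (γ, τ) ^ 2 * q τ)) :
    π ≤ ∫ τ in (0 : ℝ)..π, ∫ γ, √(D τ ^ 2 + B (γ, τ) ^ 2 * q τ) ∂ν := by
  have hΛ : Continuous fun p : Ω × ℝ => √(D p.2 ^ 2 + B p ^ 2 * q p.2) :=
    (((hD.comp continuous_snd).pow 2).add ((hB.pow 2).mul (hq.comp continuous_snd))).sqrt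
  have hK := avg_K_cont (ν := ν) hD hq hB
  have h1 : ENNReal.ofReal π ≤ ∫⁻ γ, (∫⁻ τ in Ioc (0 : ℝ) π,
      ENNReal.ofReal (√(D τ ^ 2 + B (γ, τ) ^ 2 * q τ))) ∂ν := by
    have h2 : ∀ γ : Ω, ENNReal.ofReal π ≤ ∫⁻ τ in Ioc (0 : ℝ) π,
        ENNReal.ofReal (√(D τ ^ 2 + B (γ, τ) ^ 2 * q τ)) := by
      intro γ
      have hc : Continuous fun τ : ℝ => √(D τ ^ 2 + B (γ, τ) ^ 2 * q τ) :=
        hΛ.comp (continuous_const.prodMk continuous_id)
      rw [lint_eq hc (fun _ => Real.sqrt_nonneg _) pi_pos.le]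
      exact ENNReal.ofReal_le_ofReal (h γ)
    calc ENNReal.ofReal π = ∫⁻ _ : Ω, ENNReal.ofReal π ∂ν := by
          rw [lintegral_const, measure_univ, mul_one]
      _ ≤ _ := lintegral_mono h2
  rw [lintegral_lintegral_swap (by
    exact (ENNReal.measurable_ofReal.comp hΛ.measurable).aemeasurable)] at h1
  have h3 : ∫⁻ τ in Ioc (0 : ℝ) π, (∫⁻ γ, ENNReal.ofReal (√(D τ ^ 2 + B (γ, τ) ^ 2 * q τ)) ∂ν) =
      ∫⁻ τ in Ioc (0 : ℝ) π, ENNReal.ofReal (∫ γ, √(D τ ^ 2 + B (γ, τ) ^ 2 * q τ) ∂ν) := by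
    refine setLIntegral_congr_fun measurableSet_Ioc fun τ _ => ?_
    have hcX : Continuous fun γ : Ω => √(D τ ^ 2 + B (γ, τ) ^ 2 * q τ) :=
      hΛ.comp (continuous_id.prodMk continuous_const)
    exact (ofReal_integral_eq_lintegral_ofReal
      (hcX.integrable_of_hasCompactSupport (HasCompactSupport.of_compactSpace _))
      (Eventually.of_forall fun _ => Real.sqrt_nonneg _)).symm
  rw [h3, lint_eq hK (fun τ => integral_nonneg fun _ => Real.sqrt_nonneg _) pi_pos.le] at h1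
  refine (ENNReal.ofReal_le_ofReal_iff ?_).1 h1
  exact intervalIntegral.integral_nonneg pi_pos.le fun τ _ =>
    integral_nonneg fun _ => Real.sqrt_nonneg _

lemma avg_eq (hD : Continuous D) (hq : Continuous q) (hq0 : ∀ τ, 0 ≤ q τ) (hB : Continuous B)
    (h : ∀ γ, π ≤ ∫ τ in (0 : ℝ)..π, √(D τ ^ 2 + B (γ, τ) ^ 2 * q τ))
    (hm : ∀ τ ∈ Icc 0 π, D τ ^ 2 + q τ * ∫ γ, B (γ, τ) ^ 2 ∂ν = 1) {τ : ℝ} (hτ : τ ∈ Icc 0 π) :
    ∫ γ, (√(D τ ^ 2 + B (γ, τ) ^ 2 * q τ) - 1) ^ 2 ∂ν = 0 := by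
  have hX0 : ∀ (γ : Ω) (τ : ℝ), 0 ≤ D τ ^ 2 + B (γ, τ) ^ 2 * q τ := fun γ τ =>
    add_nonneg (sq_nonneg _) (mul_nonneg (sq_nonneg _) (hq0 τ))
  have hX : Continuous fun p : Ω × ℝ => D p.2 ^ 2 + B p ^ 2 * q p.2 :=
    ((hD.comp continuous_snd).pow 2).add ((hB.pow 2).mul (hq.comp continuous_snd))
  have hiX : ∀ τ, Integrable (fun γ : Ω => D τ ^ 2 + B (γ, τ) ^ 2 * q τ) ν := fun τ =>
    (hX.comp (continuous_id.prodMk continuous_const)).integrable_of_hasCompactSupport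
      (HasCompactSupport.of_compactSpace _)
  have hiS : ∀ τ, Integrable (fun γ : Ω => √(D τ ^ 2 + B (γ, τ) ^ 2 * q τ)) ν := fun τ =>
    (hX.comp (continuous_id.prodMk continuous_const)).sqrt.integrable_of_hasCompactSupport
      (HasCompactSupport.of_compactSpace _)
  have hmean : ∀ τ ∈ Icc 0 π, ∫ γ, (D τ ^ 2 + B (γ, τ) ^ 2 * q τ) ∂ν = 1 := by
    intro τ hτ
    have hiB : Integrable (fun γ : Ω => B (γ, τ) ^ 2) ν :=
      ((hB.comp (continuous_id.prodMk continuous_const)).pow 2).integrable_of_hasCompactSupport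
        (HasCompactSupport.of_compactSpace _)
    rw [integral_add (integrable_const _) (hiB.mul_const _), integral_mul_const,
      integral_const, probReal_univ, one_smul, mul_comm _ (q τ)]
    exact hm τ hτ
  set K : ℝ → ℝ := fun τ => ∫ γ, √(D τ ^ 2 + B (γ, τ) ^ 2 * q τ) ∂ν with hKd
  have hK : Continuous K := avg_K_cont hD hq hB
  have hK1 : ∀ τ ∈ Icc 0 π, K τ ≤ 1 := fun τ hτ =>
    jensen_sqrt (hiX τ) (hiS τ) (fun γ => hX0 γ τ) one_pos (by rw [hmean τ hτ]; norm_num)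
  have hKi : π ≤ ∫ τ in (0 : ℝ)..π, K τ := avg_K hD hq hB h
  have hKe : K τ = 1 := by
    refine le_antisymm (hK1 τ hτ) (le_of_not_gt fun hlt => ?_)
    have h1 := intervalIntegral.integral_pos (f := fun t => 1 - K t) pi_pos
      (continuous_const.sub hK).continuousOn
      (fun t ht => sub_nonneg.2 (hK1 t ⟨ht.1.le, ht.2⟩)) ⟨τ, hτ, sub_pos.2 hlt⟩
    rw [intervalIntegral.integral_sub (continuous_const.intervalIntegrable _ _)
      (hK.intervalIntegrable _ _), intervalIntegral.integral_const] at h1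
    simp only [sub_zero, smul_eq_mul, mul_one] at h1
    linarith
  have h2 : ∀ γ, (√(D τ ^ 2 + B (γ, τ) ^ 2 * q τ) - 1) ^ 2 =
      (D τ ^ 2 + B (γ, τ) ^ 2 * q τ) - 2 * √(D τ ^ 2 + B (γ, τ) ^ 2 * q τ) + 1 := fun γ => by
    rw [sub_sq, Real.sq_sqrt (hX0 γ τ)]
    ring
  simp only [h2]
  have h3 : ∫ γ, √(D τ ^ 2 + B (γ, τ) ^ 2 * q τ) ∂ν = 1 := hKe
  have h4 : Integrable (fun γ : Ω => 2 * √(D τ ^ 2 + B (γ, τ) ^ 2 * q τ)) ν :=
    (hiS τ).const_mul _
  have h5 : Integrable (fun γ : Ω => (D τ ^ 2 + B (γ, τ) ^ 2 * q τ) -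
      2 * √(D τ ^ 2 + B (γ, τ) ^ 2 * q τ)) ν := (hiX τ).sub h4
  rw [integral_add h5 (integrable_const _), integral_sub (hiX τ) h4, integral_const_mul, h3,
    hmean τ hτ, integral_const, probReal_univ]
  norm_num

end

end Pool.Agent.Q196.FH
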