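import Pool.Agent.Q196.FH.Rig

/-! # The case of equality for conformal multiples -/

set_option autoImplicit false

open Real Set MeasureTheory Metric Filter Topology
open scoped ENNReal

namespace Pool.Agent.Q196.FH

open Pool.Agent.Y499.HC Pool.Agent.Y499.HR Pool.Agent.Y502.HC Pool.Agent.Q196.FE
open Pool.Agent.Q196.FD

variable {d : ℕ} {G : Subgroup (O d)} {R : ℝ} {b : ℝ → E d → ℝ} {m : Met d} {x w : E d}

/-- the length of one of the test curves of the hemisphere -/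
lemma round_curve (hNS : NonShort R (scale b m)) (hI : GInv G R m) (hcirc : Circ R m x w)
    (hx : ‖x‖ = 1) (hw : ‖w‖ = 1) (hin : inner ℝ x w = 0) {α : ℝ} (hα : α ∈ Ioo 0 (π / 2))
    (hαR : α < R) {γ : O d} (hγ : γ ∈ G) :
    π ≤ ∫ τ in (0 : ℝ)..π, √((Real.sin α * Real.cos τ / C α τ) ^ 2 +
      b (S α τ) (act γ (pt x w α τ)) ^ 2 *
        ((Real.cos α / C α τ ^ 2) ^ 2 * quad (m.g (S α τ) x) w)) := by
  have hr : ∀ t ∈ Icc 0 π, S α t ∈ Ico 0 R := fun t ht => by
    have h := S_mem hα ht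
    exact ⟨h.1, h.2.trans_lt hαR⟩
  have hdy : ∀ t, HasDerivAt (fun τ => act γ (pt x w α τ)) (act γ (dpt x w α t)) t := fun t =>
    ((act γ).toContinuousLinearEquiv : E d →L[ℝ] E d).hasFDerivAt.comp_hasDerivAt t
      (hasDerivAt_pt hα t)
  have hyc : ContDiff ℝ 1 (fun τ => act γ (pt x w α τ)) :=
    (act γ).toContinuousLinearEquiv.contDiff.comp (contDiff_pt hα)
  have hmain := hNS π (S α) (fun τ => act γ (pt x w α τ)) pi_pos
    (Pool.Agent.Z932.HC.contDiff_S hα) hyc hr ?_ ?_ ?_ ?_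
  · refine hmain.trans (le_of_eq ?_)
    refine intervalIntegral.integral_congr fun t ht => ?_
    rw [uIcc_of_le pi_pos.le] at ht
    show √((scale b m).sq (S α t) (act γ (pt x w α t)) (deriv (S α) t)
      (deriv (fun τ => act γ (pt x w α τ)) t)) = _
    rw [(Pool.Agent.Z932.HC.hasDerivAt_S hα t).deriv, (hdy t).deriv, scale_sq,
      hI γ hγ _ (hr t ht) _ (norm_pt hα hx hw hin t) _ (inner_pt hx hw hin t),
      quad_dpt hcirc hα (hr t ht)]
  · intro t
    rw [mem_sphere_zero_iff_norm]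
    show ‖act γ (pt x w α t)‖ = 1
    rw [LinearIsometryEquiv.norm_map]
    exact norm_pt hα hx hw hin t
  · unfold S
    rw [Real.sin_zero, mul_zero, Real.arcsin_zero]
  · unfold S
    rw [Real.sin_pi, mul_zero, Real.arcsin_zero]
  · show act γ (pt x w α π) = -act γ (pt x w α 0)
    rw [pt_zero, pt_pi, map_neg]

lemma speed_id' {c sa ca st ct : ℝ} (hc : c ≠ 0) (h1 : c ^ 2 = 1 - (sa * st) ^ 2)
    (h2 : sa ^ 2 + ca ^ 2 = 1) (h3 : st ^ 2 + ct ^ 2 = 1) :
    (sa * ct / c) ^ 2 + (ca / c ^ 2) ^ 2 * c ^ 2 = 1 := by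
  have h4 : (sa * ct) ^ 2 + ca ^ 2 = c ^ 2 := by
    rw [h1]
    linear_combination h2 + sa ^ 2 * h3
  have h5 : (sa * ct / c) ^ 2 + (ca / c ^ 2) ^ 2 * c ^ 2 = ((sa * ct) ^ 2 + ca ^ 2) / c ^ 2 := by
    field_simp
  rw [h5, h4]
  field_simp

theorem rigid_pt (hG : Trans G) (hb : Factor R b) (hNS : NonShort R (scale b m))
    (hI : GInv G R m) (hR : R ≤ π / 2) (hcirc : Circ R m x w) (hx : ‖x‖ = 1) (hw : ‖w‖ = 1)
    (hin : inner ℝ x w = 0) (hqc : ContinuousOn (fun s => quad (m.g s x) w) (Ico 0 R))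
    (hq : ∀ s ∈ Ico 0 R, 0 < quad (m.g s x) w)
    (hf : ∀ s ∈ Ico 0 R, Bm b s * √(quad (m.g s x) w) = Real.cos s) {α : ℝ}
    (hαR : α ∈ Ioo 0 R) {z : E d} (hz : ‖z‖ = 1) :
    b α z ^ 2 * quad (m.g α x) w = Real.cos α ^ 2 := by
  haveI : CompactSpace G := isCompact_iff_compactSpace.mp hG.closed.isCompact
  haveI : SecondCountableTopology (O d) := by
    haveI : SecondCountableTopology (Matrix (Fin (d + 1)) (Fin (d + 1)) ℝ) :=
      inferInstanceAs (SecondCountableTopology (Fin (d + 1) → Fin (d + 1) → ℝ))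
    exact TopologicalSpace.Subtype.secondCountableTopology _
  haveI : SecondCountableTopology G := TopologicalSpace.Subtype.secondCountableTopology _
  have hα : α ∈ Ioo 0 (π / 2) := ⟨hαR.1, hαR.2.trans_le hR⟩
  have hA : α ∈ Ico 0 R := ⟨hαR.1.le, hαR.2⟩
  obtain ⟨ν, hν1, hν⟩ := exists_average hG
  have hSc : Continuous (S α) := (Pool.Agent.Z932.HC.contDiff_S hα).continuous
  have hCc : Continuous (C α) := Pool.Agent.Q196.FD.continuous_C α
  have hC := C_pos' hα
  have hn := norm_pt (x := x) (w := w) hα hx hw hin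
  have hqcc : Continuous fun τ => quad (m.g (clp α (S α τ)) x) w := by
    have h1 := hqc.comp_continuous ((clp_cont α).comp hSc) fun τ => clp_mem_Ico hA _
    exact h1
  have hz0 := avg_eq (ν := ν) (D := fun τ => Real.sin α * Real.cos τ / C α τ)
    (q := fun τ => (Real.cos α / C α τ ^ 2) ^ 2 * quad (m.g (clp α (S α τ)) x) w)
    (B := fun p : G × ℝ => b (clp α (S α p.2)) (actS (p.1 : O d) (ptS x w α hn p.2) : E d))
    ((continuous_const.mul Real.continuous_cos).div hCc fun τ => (hC τ).ne')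
    (((continuous_const.div (hCc.pow 2) fun τ => (pow_pos (hC τ) 2).ne').pow 2).mul hqcc)
    (fun τ => mul_nonneg (sq_nonneg _) (hq _ (clp_mem_Ico hA _)).le)
    (b_cont hb hA hα hn hSc) ?_ ?_ (τ := π / 2) ⟨by positivity, by linarith [pi_pos]⟩
  · have hS2 : clp α (S α (π / 2)) = α := by
      have h1 : S α (π / 2) = α := by
        unfold S
        rw [Real.sin_pi_div_two, mul_one, Real.arcsin_sin (by linarith [hα.1, pi_pos]) hα.2.le]
      rw [h1, clp_eq ⟨hα.1.le, le_rfl⟩]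
    have hC2 : C α (π / 2) ^ 2 = Real.cos α ^ 2 := by
      rw [C_sq' hα, Real.sin_pi_div_two, mul_one]
      have := sin_sq_add_cos_sq α
      linarith
    have hca : 0 < Real.cos α := Real.cos_pos_of_mem_Ioo ⟨by linarith [hα.1, pi_pos], hα.2⟩
    simp only [hS2, Real.cos_pi_div_two, mul_zero, zero_div, hC2] at hz0
    set q₀ := (Real.cos α / Real.cos α ^ 2) ^ 2 * quad (m.g α x) w with hq₀
    have hq₀0 : 0 < q₀ := mul_pos (pow_pos (div_pos hca (pow_pos hca 2)) 2) (hq α hA)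
    set F : Sph d → ℝ := fun y => (√(0 ^ 2 + b α (y : E d) ^ 2 * q₀) - 1) ^ 2 with hF
    have hFc : Continuous F := by
      have h1 := hb.cont1 hA
      exact (((continuous_const.add ((h1.pow 2).mul continuous_const)).sqrt).sub
        continuous_const).pow 2
    have h1 := hν F hFc (ptS x w α hn (π / 2))
    have h2 : ∫ γ : G, F (actS (γ : O d) (ptS x w α hn (π / 2))) ∂ν = 0 := hz0
    rw [h2, mul_zero] at h1
    have h3 : F ⟨z, mem_sphere_zero_iff_norm.2 hz⟩ = 0 := by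
      by_contra hne
      have h4 := hFc.integral_pos_of_hasCompactSupport_nonneg_nonzero (μ := σ d)
        (HasCompactSupport.of_compactSpace _) (fun y => sq_nonneg _) hne
      rw [← h1] at h4
      exact lt_irrefl _ h4
    have h4 : √(0 ^ 2 + b α z ^ 2 * q₀) - 1 = 0 := by
      have h5 : (√(0 ^ 2 + b α z ^ 2 * q₀) - 1) ^ 2 = 0 := h3
      exact pow_eq_zero_iff (two_ne_zero) |>.1 h5
    have h5 : √(0 ^ 2 + b α z ^ 2 * q₀) = 1 := by linarith
    have h6 : 0 ^ 2 + b α z ^ 2 * q₀ = 1 := by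
      have h7 := Real.sq_sqrt (show 0 ≤ 0 ^ 2 + b α z ^ 2 * q₀ by positivity)
      rw [h5] at h7
      linarith
    rw [hq₀] at h6
    field_simp at h6
    linarith
  · intro γ
    have h1 := round_curve hNS hI hcirc hx hw hin hα hαR.2 γ.2
    refine h1.trans (le_of_eq ?_)
    refine intervalIntegral.integral_congr fun t ht => ?_
    rw [uIcc_of_le pi_pos.le] at ht
    have hr := S_mem hα ht
    simp only
    rw [clp_eq hr]
    rfl
  · intro τ hτ
    have hr := S_mem hα hτ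
    have hs : S α τ ∈ Ico 0 R := ⟨hr.1, hr.2.trans_lt hαR.2⟩
    have h1 := hb.avg hν hs (ptS x w α hn τ)
    simp only
    rw [clp_eq hr, h1]
    have h2 : C α τ ^ 2 = quad (m.g (S α τ) x) w * Bm b (S α τ) ^ 2 := by
      rw [← cos_S' hα, ← hf _ hs, mul_pow, Real.sq_sqrt (hq _ hs).le, mul_comm]
    have h3 := speed_id' (hC τ).ne' (C_sq' hα τ) (sin_sq_add_cos_sq α) (sin_sq_add_cos_sq τ)
    rw [← h3]
    congr 1
    rw [mul_assoc, ← h2]

end Pool.Agent.Q196.FH
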