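import Pool.Agent.Q196.FH.Fin
import Pool.Agent.Q196.FE.Unit

/-! # The unitary group as a closed transitive group of matrices -/

set_option autoImplicit false

open Real Set MeasureTheory Metric Filter Topology
open scoped ENNReal

namespace Pool.Agent.Q196.FH

open Pool.Agent.Y499.HC Pool.Agent.Y499.HR Pool.Agent.Y502.HC Pool.Agent.Q196.FE

variable {d : ℕ}

lemma act_one (x : E d) : act (1 : O d) x = x := by
  ext i
  rw [act_coord]
  show ∑ j, (1 : Matrix (Fin (d + 1)) (Fin (d + 1)) ℝ) i j * x j = x i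
  simp [Matrix.one_apply]

lemma act_inv (γ : O d) (x : E d) : act γ (act γ⁻¹ x) = x := by
  rw [← act_mul, mul_inv_cancel, act_one]

lemma act_cont (u : E d) : Continuous fun γ : O d => act γ u := by
  have h1 : ∀ γ : O d, act γ u = ∑ j, u j • (Phi γ).1 j := fun γ => act_apply γ u
  simp only [h1]
  refine continuous_finset_sum _ fun j _ => ?_
  have h3 : Continuous (fun γ : O d => (Phi γ).1 j) :=
    (continuous_apply j).comp (continuous_subtype_val.comp continuous_Phi)
  exact h3.const_smul (u j)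

/-- the matrix of an isometry -/
lemma mat_of_isom (T : E d →ₗᵢ[ℝ] E d) : ∃ γ : O d, ∀ x, act γ x = T x := by
  classical
  set A : Matrix (Fin (d + 1)) (Fin (d + 1)) ℝ :=
    Matrix.of fun i j => T (EuclideanSpace.single j (1 : ℝ)) i with hA
  have hmem : A ∈ Matrix.orthogonalGroup (Fin (d + 1)) ℝ := by
    rw [Matrix.mem_orthogonalGroup_iff']
    ext j k
    rw [Matrix.mul_apply, Matrix.one_apply]
    have h1 : inner ℝ (T (EuclideanSpace.single k (1 : ℝ))) (T (EuclideanSpace.single j (1 : ℝ))) =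
        (inner ℝ (EuclideanSpace.single k (1 : ℝ)) (EuclideanSpace.single j (1 : ℝ)) : ℝ) :=
      T.inner_map_map _ _
    rw [PiLp.inner_apply] at h1
    simp only [RCLike.inner_apply, conj_trivial] at h1
    refine Eq.trans (b := ∑ i, (T (EuclideanSpace.single j (1 : ℝ))) i *
      (T (EuclideanSpace.single k (1 : ℝ))) i) ?_ ?_
    · refine Finset.sum_congr rfl fun i _ => ?_
      rfl
    · rw [h1]
      simp [EuclideanSpace.inner_single_left, eq_comm]
  refine ⟨⟨A, hmem⟩, fun x => ?_⟩
  ext i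
  rw [act_coord]
  show ∑ j, T (EuclideanSpace.single j (1 : ℝ)) i * x j = T x i
  have h2 : x = ∑ j, x j • EuclideanSpace.single j (1 : ℝ) := by
    have := (EuclideanSpace.basisFun (Fin (d + 1)) ℝ).sum_repr x
    simpa using this.symm
  conv_rhs => rw [h2]
  rw [map_sum, WithLp.ofLp_sum, Finset.sum_apply]
  refine Finset.sum_congr rfl fun j _ => ?_
  rw [map_smul, PiLp.smul_apply, smul_eq_mul]
  ring

/-- the unitary group of the complex structure `J` -/
def UGrp (J : E d →ₗ[ℝ] E d) : Subgroup (O d) where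
  carrier := {γ | ∀ x, act γ (J x) = J (act γ x)}
  one_mem' := fun x => by rw [act_one, act_one]
  mul_mem' := by
    intro γ δ hγ hδ x
    rw [act_mul, act_mul, hδ x, hγ]
  inv_mem' := by
    intro γ hγ x
    apply (act γ).injective
    rw [act_inv, hγ, act_inv]

lemma UGrp_trans {J : E d →ₗ[ℝ] E d} (h : Cpx J) : Trans (UGrp J) where
  closed := by
    have h1 : (UGrp J : Set (O d)) = ⋂ x : E d, {γ : O d | act γ (J x) = J (act γ x)} := by
      ext γ
      simp [UGrp]
    rw [h1]
    refine isClosed_iInter fun x => isClosed_eq (act_cont _) ?_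
    exact J.continuous_of_finiteDimensional.comp (act_cont x)
  trans := by
    intro x y hx hy
    obtain ⟨T, hT, hTx, _⟩ := exists_U h hx hy
    obtain ⟨γ, hγ⟩ := mat_of_isom T
    refine ⟨γ, fun z => ?_, by rw [hγ, hTx]⟩
    rw [hγ, hγ, hT]

lemma UGrp_inv {J : E d →ₗ[ℝ] E d} {R : ℝ} {m : Met d} (hU : UInv J R m) :
    GInv (UGrp J) R m := by
  intro γ hγ s hs x hx v hv
  exact hU (act γ).toLinearIsometry (fun z => hγ z) s hs x hx v hv

/-- conformal multiples of slices which are invariant under the unitary group -/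
theorem conf_unitary {R : ℝ} {b : ℝ → E d → ℝ} {m : Met d} {J : E d →ₗ[ℝ] E d}
    (hR0 : 0 < R) (hgood : Good R m) (hP : PosDef R m) (hJ : Cpx J) (hU : UInv J R m)
    (hb : Factor R b) (hNS : NonShort R (scale b m)) (hd : 2 ≤ d) :
    hemiCollar d (min R (π / 2)) ≤ vol R (scale b m) ∧
      (R ≤ π / 2 → vol R (scale b m) = hemiCollar d R → IsRound R (scale b m)) := by
  obtain ⟨x, hx⟩ := exists_pt d
  obtain ⟨w, hw⟩ := unitary_frame hJ hU hx
  exact conf hR0 (UGrp_trans hJ) hgood hP (UGrp_inv hU) hb hNS hd hx hw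

end Pool.Agent.Q196.FH
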