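import Pool.Agent.Q196.FH.Avd

/-! # The volume of the conformal collar -/

set_option autoImplicit false

open Real Set MeasureTheory Metric Filter Topology
open scoped ENNReal

namespace Pool.Agent.Q196.FH

open Pool.Agent.Y499.HC Pool.Agent.Y499.HR Pool.Agent.Y502.HC Pool.Agent.Q196.FE
open Pool.Agent.Q196.FD

variable {d : ℕ} {G : Subgroup (O d)} {R : ℝ} {b : ℝ → E d → ℝ} {m : Met d} {x : E d}
  {ι : Type} [Fintype ι] {w : ι → E d}

lemma inner_act (γ : O d) (u v : E d) : inner ℝ (act γ u) (act γ v) = inner ℝ u v :=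
  (act γ).inner_map_map u v

/-- frames are transported by the isometries of the slices -/
lemma frame_act (hI : GInv G R m) (hx : ‖x‖ = 1) (h : Frame R m x w) {γ : O d} (hγ : γ ∈ G) :
    Frame R m (act γ x) fun i => act γ (w i) where
  card := h.card
  perp := fun i => by rw [inner_act]; exact h.perp i
  orthn := h.orthn.comp_linearIsometryEquiv (act γ)
  diag := by
    intro s hs c
    have hperp : inner ℝ x (∑ i, c i • w i) = 0 := by
      rw [inner_sum]
      refine Finset.sum_eq_zero fun i _ => ?_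
      rw [inner_smul_right, h.perp i, mul_zero]
    have h1 : ∑ i, c i • act γ (w i) = act γ (∑ i, c i • w i) := by
      rw [map_sum]
      exact Finset.sum_congr rfl fun i _ => (map_smul _ _ _).symm
    rw [h1, hI γ hγ s hs x hx _ hperp, h.diag s hs c]
    refine Finset.sum_congr rfl fun i _ => ?_
    rw [hI γ hγ s hs x hx _ (h.perp i)]
  circ := by
    intro i s hs p q hpq
    have hw : ‖w i‖ = 1 := h.orthn.norm_eq_one i
    have hxw := h.perp i
    have hwx : inner ℝ (w i) x = 0 := by rw [real_inner_comm]; exact hxw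
    have hn : ‖p • x + q • w i‖ = 1 := by
      have h1 : ‖p • x + q • w i‖ ^ 2 = 1 ^ 2 := by
        rw [norm_add_sq_real, inner_smul_left, inner_smul_right, hxw, norm_smul, norm_smul, hx, hw,
          mul_pow, mul_pow, Real.norm_eq_abs, Real.norm_eq_abs, sq_abs, sq_abs]
        simp only [mul_zero, add_zero, one_pow, mul_one]
        exact hpq
      exact (sq_eq_sq₀ (norm_nonneg _) zero_le_one).1 h1
    have ht : inner ℝ (p • x + q • w i) (p • w i - q • x) = 0 := by
      simp only [inner_smul_left, inner_smul_right, inner_add_left, inner_sub_right, hxw, hwx,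
        real_inner_self_eq_norm_sq, hx, hw, conj_trivial]
      ring
    have h1 : p • act γ x + q • act γ (w i) = act γ (p • x + q • w i) := by
      rw [map_add, map_smul, map_smul]
    have h2 : p • act γ (w i) - q • act γ x = act γ (p • w i - q • x) := by
      rw [map_sub, map_smul, map_smul]
    show quad (m.g s (p • act γ x + q • act γ (w i))) (p • act γ (w i) - q • act γ x) =
      quad (m.g s (act γ x)) (act γ (w i))
    rw [h1, h2, hI γ hγ s hs _ hn _ ht, hI γ hγ s hs x hx _ hxw]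
    exact h.circ i s hs p q hpq

lemma scale_det (hG : Trans G) (hgood : Good R m) (hP : PosDef R m) (hI : GInv G R m)
    (hb : Factor R b) (hx : ‖x‖ = 1) (h : Frame R m x w) {s : ℝ} (hs : s ∈ Ico 0 R) {y : E d}
    (hy : ‖y‖ = 1) : √(detTan ((scale b m).g s y) y) = b s y ^ d * ∏ i, √(quad (m.g s x) (w i)) := by
  obtain ⟨γ, hγ, hγx⟩ := hG.trans x y hx hy
  have hf := frame_act hI hx h hγ
  rw [hγx] at hf
  have hq : ∀ i, quad (m.g s y) (act γ (w i)) = quad (m.g s x) (w i) := fun i => by
    rw [← hγx]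
    exact hI γ hγ s hs x hx _ (h.perp i)
  have h1 : detTan ((scale b m).g s y) y = ∏ i, quad ((scale b m).g s y) (act γ (w i)) := by
    refine detTan_eq ?_ hy hf.card hf.perp hf.orthn ?_
    · have := hgood.symm s hs y (mem_sphere_zero_iff_norm.2 hy)
      exact this.smul _
    · intro c
      show quad ((b s y ^ 2) • m.g s y) _ = ∑ i, c i ^ 2 * quad ((b s y ^ 2) • m.g s y) _
      simp only [quad_smul_mat]
      rw [hf.diag s hs c, Finset.mul_sum]
      refine Finset.sum_congr rfl fun i _ => ?_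
      ring
  have h2 : ∀ i, quad ((scale b m).g s y) (act γ (w i)) =
      (b s y * √(quad (m.g s x) (w i))) ^ 2 := fun i => by
    show quad ((b s y ^ 2) • m.g s y) _ = _
    rw [quad_smul_mat, hq, mul_pow, Real.sq_sqrt (h.quad_pos hP hx hs i).le]
  have hb0 := hb.pos s hs y hy
  rw [h1]
  simp only [h2]
  rw [Finset.prod_pow, Real.sqrt_sq (Finset.prod_nonneg fun i _ =>
    mul_nonneg hb0.le (Real.sqrt_nonneg _)), Finset.prod_mul_distrib, Finset.prod_const,
    Finset.card_univ, h.card]

/-- the tangent line inequality for the power -/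
lemma tangent {y t : ℝ} (hy : 0 < y) (ht : 0 < t) (hd : 2 ≤ d) :
    t ^ d + (d / 2) * (t ^ d / t ^ 2) * (y ^ 2 - t ^ 2) ≤ y ^ d := by
  have h1 : (1 : ℝ) ≤ (d : ℝ) / 2 := by
    have : (2 : ℝ) ≤ d := by exact_mod_cast hd
    linarith
  have h2 : (-1 : ℝ) ≤ y ^ 2 / t ^ 2 - 1 := by
    have : 0 ≤ y ^ 2 / t ^ 2 := by positivity
    linarith
  have h3 := one_add_mul_self_le_rpow_one_add h2 h1
  have h4 : (1 + (y ^ 2 / t ^ 2 - 1)) ^ ((d : ℝ) / 2) = y ^ d / t ^ d := by
    have h5 : 1 + (y ^ 2 / t ^ 2 - 1) = (y / t) ^ (2 : ℝ) := by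
      rw [Real.rpow_two, div_pow]
      ring
    rw [h5, ← Real.rpow_mul (by positivity)]
    have h6 : (2 : ℝ) * ((d : ℝ) / 2) = ((d : ℕ) : ℝ) := by ring
    rw [h6, Real.rpow_natCast, div_pow]
  rw [h4] at h3
  have h7 : 0 < t ^ d := pow_pos ht d
  have h8 := mul_le_mul_of_nonneg_left h3 h7.le
  have h9 : t ^ d * (y ^ d / t ^ d) = y ^ d := by field_simp
  rw [h9] at h8
  refine le_trans (le_of_eq ?_) h8
  field_simp

lemma Factor.mean_pow (hb : Factor R b) (hd : 2 ≤ d) {s : ℝ} (hs : s ∈ Ico 0 R) :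
    (σ d).real univ * Bm b s ^ d ≤ ∫ y : Sph d, b s y ^ d ∂(σ d) := by
  have ht := hb.Bm_pos hs
  have hc := hb.cont1 hs
  have hi : ∀ k : ℕ, Integrable (fun y : Sph d => b s (y : E d) ^ k) (σ d) := fun k =>
    (hc.pow k).integrable_of_hasCompactSupport (HasCompactSupport.of_compactSpace _)
  set T := Bm b s with hT
  have hsub : Integrable (fun y : Sph d => b s (y : E d) ^ 2 - T ^ 2) (σ d) :=
    (hi 2).sub (integrable_const _)
  have h1 : ∫ y : Sph d, (T ^ d + (d / 2) * (T ^ d / T ^ 2) * (b s y ^ 2 - T ^ 2)) ∂(σ d) ≤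
      ∫ y : Sph d, b s y ^ d ∂(σ d) := by
    refine integral_mono ((integrable_const _).add (hsub.const_mul _)) (hi d) fun y => ?_
    exact tangent (hb.pos s hs y (mem_sphere_zero_iff_norm.1 y.2)) ht hd
  refine le_trans (le_of_eq ?_) h1
  rw [integral_add (integrable_const _) (hsub.const_mul _), integral_const_mul, integral_sub (hi 2) (integrable_const _), integral_const, integral_const]
  have h2 : ∫ y : Sph d, b s y ^ 2 ∂(σ d) = (σ d).real univ * T ^ 2 := by
    rw [hT, hb.Bm_sq hs]
    have := (sigma_pos d).ne'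
    field_simp
  rw [h2]
  simp only [smul_eq_mul]
  ring

/-- the functions of the one-dimensional problem -/
lemma conf_dirs (hG : Trans G) (hgood : Good R m) (hP : PosDef R m) (hI : GInv G R m)
    (hb : Factor R b) (hNS : NonShort R (scale b m)) (hx : ‖x‖ = 1) (h : Frame R m x w) :
    Dirs d R fun (i : ι) s => Bm b s * √(quad (m.g s x) (w i)) where
  card := h.card
  curve := fun i => curve_avg hG hb hNS hI (h.circ i) hx (h.orthn.norm_eq_one i) (h.perp i)
    (quad_cont hgood hx (w i)) fun s hs => h.quad_pos hP hx hs i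
  cont := fun i => hb.Bm_cont.mul (quad_cont hgood hx (w i)).sqrt
  pos := fun i s hs => mul_pos (hb.Bm_pos hs) (Real.sqrt_pos.2 (h.quad_pos hP hx hs i))

/-- the volume of the slices -/
lemma slice_vol (hG : Trans G) (hgood : Good R m) (hP : PosDef R m) (hI : GInv G R m)
    (hb : Factor R b) (hx : ‖x‖ = 1) (h : Frame R m x w) {s : ℝ} (hs : s ∈ Ico 0 R) :
    ∫⁻ y : Sph d, ENNReal.ofReal (√(detTan ((scale b m).g s y) y)) ∂(σ d) =
      ENNReal.ofReal ((∏ i, √(quad (m.g s x) (w i))) * ∫ y : Sph d, b s y ^ d ∂(σ d)) := by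
  have h1 : ∀ y : Sph d, √(detTan ((scale b m).g s y) y) =
      (∏ i, √(quad (m.g s x) (w i))) * b s y ^ d := fun y => by
    rw [scale_det hG hgood hP hI hb hx h hs (mem_sphere_zero_iff_norm.1 y.2), mul_comm]
  simp only [h1]
  have hc : Continuous fun y : Sph d => (∏ i, √(quad (m.g s x) (w i))) * b s (y : E d) ^ d :=
    continuous_const.mul ((hb.cont1 hs).pow d)
  rw [← ofReal_integral_eq_lintegral_ofReal
    (hc.integrable_of_hasCompactSupport (HasCompactSupport.of_compactSpace _))
    (Eventually.of_forall fun y => mul_nonneg (Finset.prod_nonneg fun i _ => Real.sqrt_nonneg _)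
      (pow_pos (hb.pos s hs y (mem_sphere_zero_iff_norm.1 y.2)) d).le), integral_const_mul]

lemma slice_ge (hG : Trans G) (hgood : Good R m) (hP : PosDef R m) (hI : GInv G R m)
    (hb : Factor R b) (hd : 2 ≤ d) (hx : ‖x‖ = 1) (h : Frame R m x w) {s : ℝ}
    (hs : s ∈ Ico 0 R) :
    (σ d) univ * ENNReal.ofReal (∏ i, (Bm b s * √(quad (m.g s x) (w i)))) ≤
      ∫⁻ y : Sph d, ENNReal.ofReal (√(detTan ((scale b m).g s y) y)) ∂(σ d) := by
  rw [slice_vol hG hgood hP hI hb hx h hs]
  have h1 : (σ d) univ = ENNReal.ofReal ((σ d).real univ) :=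
    (ENNReal.ofReal_toReal (measure_ne_top _ _)).symm
  rw [h1, ← ENNReal.ofReal_mul (sigma_pos d).le]
  refine ENNReal.ofReal_le_ofReal ?_
  rw [Finset.prod_mul_distrib, Finset.prod_const, Finset.card_univ, h.card]
  have h2 := hb.mean_pow hd hs
  have h3 : 0 ≤ ∏ i, √(quad (m.g s x) (w i)) := Finset.prod_nonneg fun i _ => Real.sqrt_nonneg _
  have h4 := mul_le_mul_of_nonneg_left h2 h3
  refine le_trans (le_of_eq ?_) h4
  ring

lemma conf_aux (hG : Trans G) (hgood : Good R m) (hP : PosDef R m) (hI : GInv G R m)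
    (hb : Factor R b) (hd : 2 ≤ d) (hx : ‖x‖ = 1) (h : Frame R m x w) :
    (σ d) univ * ∫⁻ s in Ioo 0 R, ENNReal.ofReal (∏ i, (Bm b s * √(quad (m.g s x) (w i)))) ≤
      vol R (scale b m) := by
  unfold vol
  rw [← lintegral_const_mul' _ _ (measure_ne_top _ _)]
  exact setLIntegral_mono' measurableSet_Ioo fun s hs =>
        slice_ge hG hgood hP hI hb hd hx h ⟨hs.1.le, hs.2⟩

/-- the volume inequality for conformal multiples of invariant slices -/
theorem conf_volume (hR0 : 0 < R) (hR : R ≤ π / 2) (hG : Trans G) (hgood : Good R m)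
    (hP : PosDef R m) (hI : GInv G R m) (hb : Factor R b) (hNS : NonShort R (scale b m))
    (hd : 2 ≤ d) (hx : ‖x‖ = 1) (h : Frame R m x w) :
    hemiCollar d R ≤ vol R (scale b m) := by
  have h1 := one_dim hR0 hR (conf_dirs hG hgood hP hI hb hNS hx h)
  exact (mul_le_mul_right h1 _).trans (conf_aux hG hgood hP hI hb hd hx h)

end Pool.Agent.Q196.FH
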